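import Mathlib
import Pool.Agent.Helper56.FuchsianDefs
import Pool.Agent.Helper56.HeckeMain

/-!
# A Fuchsian group satisfying (H) for every infinite set of groups `PSL(2, p)`, with an element of
infinite order which is killed with probability at least one third
-/

namespace Pool.Agent.Results.MP_b9a4b9_al.PSLTwoKill

open scoped MatrixGroups
open Pool.Agent.Helper56.Fuchsian Pool.Agent.Helper56.Hecke

theorem result : ∃ Γ : Subgroup PSL(2, ℝ), IsFuchsian Γ ∧
    ∃ γ : Γ, (∀ n : ℕ, 0 < n → γ ^ n ≠ 1) ∧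
      ∀ T : Set ℕ, T.Infinite → (∀ p ∈ T, p.Prime ∧ 5 ≤ p) →
        IsInfiniteSetOfFiniteSimpleGroups (fun p : T => PSL(2, ZMod p)) ∧
        HypothesisH Γ (fun p : T => PSL(2, ZMod p)) ∧
        ∀ p : T, 1 / 3 ≤ homProb Γ PSL(2, ZMod p) (fun φ => φ γ = 1) :=
  ⟨Gam, isFuchsian, gam, gam_pow_ne_one, fun T hT hp =>
    ⟨infinite_set_sub T hT hp, hypothesisH_sub T hp, kill_sub T hp⟩⟩

end Pool.Agent.Results.MP_b9a4b9_al.PSLTwoKill
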